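import Pool.Agent.Work.MP_b0c12c_chain.FinalJ
import Pool.Agent.Work.MP_b0c12c_chain.Corollaries

/-!
Several consecutive large gaps between primes near prescribed multiples of
`f(x) = log x (log log x)^2 (log log log log x) / (log log log x)^2`, below every large `X`.
-/

set_option autoImplicit false

namespace Pool.Agent.Results.MP_b0c12c_nt.JointLargeGaps

open Filter

/-- **Theorem.** There are `C` and `κ > 0` such that for all `k ≥ 1`, `J ≥ C k ^ 2`, all real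
numbers `0 ≤ b_0 < ... < b_(J-1) ≤ κ` and all `ε > 0` the following holds for all large natural
numbers `X`: there are `n` and indices `i_0 < ... < i_k` such that `X / 4 ≤ p_n`, `p_(n+k) ≤ X` and
the `k` consecutive gaps `p_(n+j+1) - p_(n+j)`, `0 ≤ j < k`, differ by at most `ε f(X)` from
`(b_(i_(j+1)) - b_(i_j)) f(X)`. -/
theorem result :
    ∃ C κ : ℝ, 0 < κ ∧ ∀ k J : ℕ, 1 ≤ k → C * k ^ 2 ≤ J → ∀ b : Fin J → ℝ, StrictMono b →
      (∀ i, 0 ≤ b i ∧ b i ≤ κ) → ∀ ε : ℝ, 0 < ε → ∀ᶠ X : ℕ in atTop,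
      ∃ (n : ℕ) (i : Fin (k + 1) → Fin J), StrictMono i ∧
        (X : ℝ) / 4 ≤ Nat.nth Nat.Prime n ∧ Nat.nth Nat.Prime (n + k) ≤ X ∧
        ∀ j : Fin k, |((Nat.nth Nat.Prime (n + j + 1) : ℝ) - Nat.nth Nat.Prime (n + j)) -
          (b (i j.succ) - b (i j.castSucc)) * (Real.log X * Real.log (Real.log X) ^ 2 *
            Real.log (Real.log (Real.log (Real.log X))) / Real.log (Real.log (Real.log X)) ^ 2)| ≤
          ε * (Real.log X * Real.log (Real.log X) ^ 2 *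
            Real.log (Real.log (Real.log (Real.log X))) /
              Real.log (Real.log (Real.log X)) ^ 2) := by
  obtain ⟨C, κ, hκ, h⟩ := Pool.LGC.j_JGX
  exact ⟨C, κ, hκ, fun k J hk hJ b hb hb' ε hε => h k J hk hJ b hb hb' ε hε⟩

/-- Consequence (equally spaced `b`): there is `c > 0` such that for every `k ≥ 1` and all large
`X` there are `k` consecutive gaps of size at least `(c / k ^ 2) f(X)` between primes of
`[X / 4, X]`. -/
theorem chains : ∃ c : ℝ, 0 < c ∧ ∀ k : ℕ, 1 ≤ k → ∀ᶠ X : ℕ in atTop, ∃ n : ℕ,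
    (X : ℝ) / 4 ≤ Nat.nth Nat.Prime n ∧ Nat.nth Nat.Prime (n + k) ≤ X ∧
    ∀ j < k, c / k ^ 2 * (Real.log X * Real.log (Real.log X) ^ 2 *
      Real.log (Real.log (Real.log (Real.log X))) / Real.log (Real.log (Real.log X)) ^ 2) ≤
      (Nat.nth Nat.Prime (n + j + 1) : ℝ) - Nat.nth Nat.Prime (n + j) := by
  obtain ⟨c, hc, h⟩ := Pool.LGC.cor_chains Pool.LGC.j_JGX
  exact ⟨c, hc, fun k hk => h k hk⟩

/-- Consequence (limit points): among any `J ≥ C k ^ 2` points of `[0, κ]` there are `k + 1` whose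
consecutive differences form a limit point of the `k`-tuples
`((p_(n+j+1) - p_(n+j)) / f(p_n))`, `0 ≤ j < k`, as `n` tends to infinity. -/
theorem limit_points : ∃ C κ : ℝ, 0 < κ ∧ ∀ k J : ℕ, 1 ≤ k → C * k ^ 2 ≤ J →
    ∀ b : Fin J → ℝ, StrictMono b → (∀ i, 0 ≤ b i ∧ b i ≤ κ) →
    ∃ i : Fin (k + 1) → Fin J, StrictMono i ∧ ∀ ε : ℝ, 0 < ε → ∃ᶠ n in atTop, ∀ j : Fin k,
      |((Nat.nth Nat.Prime (n + j + 1) : ℝ) - Nat.nth Nat.Prime (n + j)) /
        (Real.log (Nat.nth Nat.Prime n) * Real.log (Real.log (Nat.nth Nat.Prime n)) ^ 2 *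
          Real.log (Real.log (Real.log (Real.log (Nat.nth Nat.Prime n)))) /
          Real.log (Real.log (Real.log (Nat.nth Nat.Prime n))) ^ 2) -
        (b (i j.succ) - b (i j.castSucc))| ≤ ε := by
  obtain ⟨C, κ, hκ, h⟩ := Pool.LGC.cor_limit Pool.LGC.j_JGX
  exact ⟨C, κ, hκ, fun k J hk hJ b hb hb' => h k J hk hJ b hb hb'⟩

end Pool.Agent.Results.MP_b0c12c_nt.JointLargeGaps
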