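import Pool.Agent.Work.MP_b0c12c_rp.Final
import Pool.Agent.Work.MP_b0c12c_li.Rec

/-!
Tuples of primes in the longest gaps: for `K ≥ exp (C m)`, all large `X` and ALL admissible
`a_1 < ... < a_K ≤ κ f(X)`, `f(x) = log x (log_2 x)^2 log_4 x / (log_3 x)^2`, at least `X ^ (1 - ε)`
integers `n` of `[X, 4 X]` are such that at least `m` of the `n + a_i` are primes and all other
integers at distance at most `κ f(X)` from `n` have a prime factor `≤ X ^ ε`.
-/

set_option autoImplicit false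

namespace Pool.Agent.Results.MP_b0c12c_nt.RecordPatterns

open Filter

/-- **Theorem.** For every `ε > 0` there are `κ > 0` and `C > 0` such that for all natural numbers
`m ≥ 1` and `K ≥ exp (C m)` the following holds for all large natural numbers `X` and for all
natural numbers `a_0 < ... < a_(K-1) ≤ κ f(X)` which miss a residue class modulo each prime: at
least `X ^ (1 - ε)` integers `n` of `[X, 4 X]` have the property that at least `m` of the numbers
`n + a_i` are primes and every natural number `q` with `|q - n| ≤ κ f(X)` which is not one of the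
`n + a_i` has a prime factor `p ≤ X ^ ε`. Here
`f(X) = log X (log log X)^2 (log log log log X) / (log log log X)^2`. -/
theorem result :
    ∀ ε : ℝ, 0 < ε → ∃ κ C : ℝ, 0 < κ ∧ 0 < C ∧ ∀ m K : ℕ, 1 ≤ m → Real.exp (C * m) ≤ K →
      ∀ᶠ X : ℕ in atTop, ∀ a : Fin K → ℕ, StrictMono a →
      (∀ i, (a i : ℝ) ≤ κ * (Real.log X * Real.log (Real.log X) ^ 2 *
        Real.log (Real.log (Real.log (Real.log X))) / Real.log (Real.log (Real.log X)) ^ 2)) →
      (∀ p : ℕ, p.Prime → ∃ r : ℕ, ∀ i, ¬ a i ≡ r [MOD p]) →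
      (X : ℝ) ^ (1 - ε) ≤ ({n : ℕ | X ≤ n ∧ n ≤ 4 * X ∧ m ≤ {i | (n + a i).Prime}.ncard ∧
        ∀ q : ℕ, |(q : ℝ) - n| ≤ κ * (Real.log X * Real.log (Real.log X) ^ 2 *
          Real.log (Real.log (Real.log (Real.log X))) / Real.log (Real.log (Real.log X)) ^ 2) →
          (∃ i, q = n + a i) ∨
            ∃ p : ℕ, p.Prime ∧ (p : ℝ) ≤ (X : ℝ) ^ ε ∧ p ∣ q}.ncard : ℝ) := by
  classical
  intro ε hε
  obtain ⟨κ, C, hκ, hC, h⟩ := Pool.LGR.r_RECP ε hε
  refine ⟨κ, C, hκ, hC, fun m K hm hK => ?_⟩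
  filter_upwards [h m K hm hK] with X hX a ha ha' hadm
  refine (hX a ha ha' hadm).trans (le_of_eq ?_)
  congr 1
  rw [← Set.ncard_coe_finset]
  congr 1
  ext n
  rw [Finset.mem_coe, Finset.mem_filter, Finset.mem_Icc, Set.mem_ofPred_eq]
  have h1 : {i | (n + a i).Prime}.ncard =
      (Finset.univ.filter (fun i => (n + a i).Prime)).card := by
    rw [← Set.ncard_coe_finset]
    congr 1
    ext i
    simp
  rw [h1]
  constructor
  · rintro ⟨⟨h2, h3⟩, h4, h5⟩
    refine ⟨h2, h3, ?_, h5⟩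
    convert h4 using 3
  · rintro ⟨h2, h3, h4, h5⟩
    refine ⟨⟨h2, h3⟩, ?_, h5⟩
    convert h4 using 3

/-- Consequence: for every `ε > 0` there is `c > 0` such that for all large `X` at least `c f(X)`
natural numbers `d` are gaps `p_(l+1) - p_l` for at least `X ^ (1 - ε)` primes `p_l` of
`[X, 5 X]`. -/
theorem gap_values : ∀ ε : ℝ, 0 < ε → ∃ c : ℝ, 0 < c ∧ ∀ᶠ X : ℕ in atTop,
    c * (Real.log X * Real.log (Real.log X) ^ 2 *
      Real.log (Real.log (Real.log (Real.log X))) / Real.log (Real.log (Real.log X)) ^ 2) ≤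
    ({d : ℕ | 0 < d ∧ (X : ℝ) ^ (1 - ε) ≤ ({l : ℕ | X ≤ Nat.nth Nat.Prime l ∧
      Nat.nth Nat.Prime l ≤ 5 * X ∧
      Nat.nth Nat.Prime (l + 1) = Nat.nth Nat.Prime l + d}.ncard : ℝ)}.ncard : ℝ) := by
  classical
  intro ε hε
  obtain ⟨c, hc, h⟩ := Pool.LGR.r_DGV ε hε
  refine ⟨c, hc, ?_⟩
  filter_upwards [h, eventually_ge_atTop 1] with X hX hX1
  have hset : ∀ d : ℕ, {l : ℕ | X ≤ Nat.nth Nat.Prime l ∧ Nat.nth Nat.Prime l ≤ 5 * X ∧
      Nat.nth Nat.Prime (l + 1) = Nat.nth Nat.Prime l + d} =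
      ((Pool.LGR.GV X d : Finset ℕ) : Set ℕ) := by
    intro d
    ext l
    unfold Pool.LGR.GV
    rw [Finset.mem_coe, Finset.mem_filter, Finset.mem_range, Set.mem_ofPred_eq]
    constructor
    · rintro ⟨h1, h2, h3⟩
      refine ⟨?_, h1, h2, h3⟩
      have h4 : l + 2 ≤ Nat.nth Nat.Prime l := Nat.add_two_le_nth_prime l
      omega
    · rintro ⟨-, h1, h2, h3⟩
      exact ⟨h1, h2, h3⟩
  have hfin : {d : ℕ | 0 < d ∧ (X : ℝ) ^ (1 - ε) ≤ ({l : ℕ | X ≤ Nat.nth Nat.Prime l ∧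
      Nat.nth Nat.Prime l ≤ 5 * X ∧
      Nat.nth Nat.Prime (l + 1) = Nat.nth Nat.Prime l + d}.ncard : ℝ)}.Finite := by
    refine (Set.finite_Iic (Nat.nth Nat.Prime (5 * X + 1))).subset ?_
    rintro d ⟨hd, h1⟩
    rw [hset, Set.ncard_coe_finset] at h1
    have h2 : (0 : ℝ) < (X : ℝ) ^ (1 - ε) :=
      Real.rpow_pos_of_pos (by exact_mod_cast hX1) _
    have h3 : 0 < (Pool.LGR.GV X d).card := by
      have : (0 : ℝ) < ((Pool.LGR.GV X d).card : ℝ) := lt_of_lt_of_le h2 h1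
      exact_mod_cast this
    obtain ⟨l, hl⟩ := Finset.card_pos.1 h3
    unfold Pool.LGR.GV at hl
    rw [Finset.mem_filter, Finset.mem_range] at hl
    obtain ⟨h4, h5, h6, h7⟩ := hl
    rw [Set.mem_Iic]
    have h8 : Nat.nth Nat.Prime (l + 1) ≤ Nat.nth Nat.Prime (5 * X + 1) :=
      Nat.nth_monotone Nat.infinite_setOfPred_prime (by omega)
    omega
  refine hX.trans ?_
  have h1 := Set.ncard_le_ncard (s := (((Finset.Icc 1 X).filter (fun d => (X : ℝ) ^ (1 - ε) ≤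
    ((Pool.LGR.GV X d).card : ℝ)) : Finset ℕ) : Set ℕ)) (fun d hd => by
      rw [Finset.mem_coe, Finset.mem_filter, Finset.mem_Icc] at hd
      refine ⟨by omega, ?_⟩
      rw [hset, Set.ncard_coe_finset]
      exact hd.2) hfin
  rw [Set.ncard_coe_finset] at h1
  exact_mod_cast h1

/-- Consequence: there is `c > 0` such that for every `m ≥ 1` there is `B` such that for all large
`X` there are at least `m` consecutive primes of `[X, 5 X]` in an interval of length `B`, and the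
gaps before the first and after the last one are at least `c f(X)`. -/
theorem isolated_clusters : ∃ c : ℝ, 0 < c ∧ ∀ m : ℕ, 1 ≤ m → ∃ B : ℕ, ∀ᶠ X : ℕ in atTop,
    ∃ n j : ℕ, m ≤ j + 1 ∧ X ≤ Nat.nth Nat.Prime (n + 1) ∧
    Nat.nth Nat.Prime (n + 1 + j) ≤ 5 * X ∧
    Nat.nth Nat.Prime (n + 1 + j) ≤ Nat.nth Nat.Prime (n + 1) + B ∧
    c * (Real.log X * Real.log (Real.log X) ^ 2 *
      Real.log (Real.log (Real.log (Real.log X))) / Real.log (Real.log (Real.log X)) ^ 2) ≤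
      (Nat.nth Nat.Prime (n + 1) : ℝ) - Nat.nth Nat.Prime n ∧
    c * (Real.log X * Real.log (Real.log X) ^ 2 *
      Real.log (Real.log (Real.log (Real.log X))) / Real.log (Real.log (Real.log X)) ^ 2) ≤
      (Nat.nth Nat.Prime (n + 1 + j + 1) : ℝ) - Nat.nth Nat.Prime (n + 1 + j) := by
  obtain ⟨c, hc, h⟩ := Pool.LGR.r_RCO
  exact ⟨c, hc, h⟩

/-- Consequence: for all large `X` there is a gap of record size right after a bounded gap, and one
right before a bounded gap; the bounded gaps are between primes of `[X, 5 X]`. -/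
theorem record_next_to_bounded : ∃ (c : ℝ) (B : ℕ), 0 < c ∧ ∀ᶠ X : ℕ in atTop,
    (∃ n : ℕ, X ≤ Nat.nth Nat.Prime n ∧ Nat.nth Nat.Prime (n + 1) ≤ 5 * X ∧
      Nat.nth Nat.Prime (n + 1) ≤ Nat.nth Nat.Prime n + B ∧
      c * (Real.log X * Real.log (Real.log X) ^ 2 *
        Real.log (Real.log (Real.log (Real.log X))) / Real.log (Real.log (Real.log X)) ^ 2) ≤
        (Nat.nth Nat.Prime (n + 2) : ℝ) - Nat.nth Nat.Prime (n + 1)) ∧
    (∃ n : ℕ, X ≤ Nat.nth Nat.Prime (n + 1) ∧ Nat.nth Nat.Prime (n + 2) ≤ 5 * X ∧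
      Nat.nth Nat.Prime (n + 2) ≤ Nat.nth Nat.Prime (n + 1) + B ∧
      c * (Real.log X * Real.log (Real.log X) ^ 2 *
        Real.log (Real.log (Real.log (Real.log X))) / Real.log (Real.log (Real.log X)) ^ 2) ≤
        (Nat.nth Nat.Prime (n + 1) : ℝ) - Nat.nth Nat.Prime n) := by
  obtain ⟨c, hc, h⟩ := isolated_clusters
  obtain ⟨B, hB⟩ := h 2 (by norm_num)
  refine ⟨c, B, hc, ?_⟩
  filter_upwards [hB] with X hX
  obtain ⟨n, j, h1, h2, h3, h4, h5, h6⟩ := hX
  have hmono : Monotone (Nat.nth Nat.Prime) := Nat.nth_monotone Nat.infinite_setOfPred_prime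
  obtain ⟨i, rfl⟩ : ∃ i, j = i + 1 := ⟨j - 1, by omega⟩
  constructor
  · refine ⟨n + 1 + i, h2.trans (hmono (by omega)), h3, ?_, h6⟩
    refine h4.trans (Nat.add_le_add_right (hmono (by omega)) B)
  · exact ⟨n, h2, (hmono (by omega : n + 2 ≤ n + 1 + (i + 1))).trans h3,
      (hmono (by omega : n + 2 ≤ n + 1 + (i + 1))).trans h4, h5⟩

/-- Consequence: for every `ε > 0` there is `c > 0` such that every `x` in `[0, c]` is a limit point
of `(p_(l+1) - p_l) / f(p_l)`: for every `η > 0` there are arbitrarily large `X` such that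
`|(p_(l+1) - p_l) - x f(X)| ≤ η f(X)` for at least `X ^ (1 - ε)` primes `p_l` of `[X, 5 X]`. -/
theorem limit_interval : ∀ ε : ℝ, 0 < ε → ∃ c : ℝ, 0 < c ∧ ∀ x ∈ Set.Icc 0 c, ∀ η : ℝ, 0 < η →
    ∃ᶠ X : ℕ in atTop, (X : ℝ) ^ (1 - ε) ≤ ({l : ℕ | X ≤ Nat.nth Nat.Prime l ∧
      Nat.nth Nat.Prime l ≤ 5 * X ∧
      |((Nat.nth Nat.Prime (l + 1) : ℝ) - Nat.nth Nat.Prime l) - x * (Real.log X *
        Real.log (Real.log X) ^ 2 * Real.log (Real.log (Real.log (Real.log X))) /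
        Real.log (Real.log (Real.log X)) ^ 2)| ≤ η * (Real.log X *
        Real.log (Real.log X) ^ 2 * Real.log (Real.log (Real.log (Real.log X))) /
        Real.log (Real.log (Real.log X)) ^ 2)}.ncard : ℝ) := by
  classical
  intro ε hε
  obtain ⟨c, hc, h⟩ := Pool.LGR.p_LIM (Pool.LGR.p_PAI Pool.LGR.r_RECP) ε hε
  refine ⟨c, hc, fun x hx η hη => (h x hx η hη).mono (fun X hX => ?_)⟩
  refine hX.trans (le_of_eq ?_)
  rw [← Set.ncard_coe_finset]
  congr 2
  ext l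
  unfold Pool.LGR.LV
  rw [Finset.mem_coe, Finset.mem_filter, Finset.mem_range, Set.mem_ofPred_eq]
  constructor
  · rintro ⟨-, h1, h2, h3⟩
    exact ⟨h1, h2, h3⟩
  · rintro ⟨h1, h2, h3⟩
    have h4 : l + 2 ≤ Nat.nth Nat.Prime l := Nat.add_two_le_nth_prime l
    exact ⟨by omega, h1, h2, h3⟩

end Pool.Agent.Results.MP_b0c12c_nt.RecordPatterns
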