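import Pool.Agent.Work.MP_b0c12c_px.AllW
import Pool.Agent.Work.MP_b0c12c_li.Log

/-!
# MP_b0c12c: patterns of primes at the scale of the average gap, with positive proportion

For every `m` and `eps > 0` there is `K` such that for all reals `b 1 < ... < b K` a positive
proportion of the integers `n` sees primes at `m` (or more) of the `K` places `n + b j log X` and
no other primes within `Lam log X`, where `Lam` is as large as we like. All the other integers of
this window even have a prime factor `≤ X ^ eps`.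
-/

set_option autoImplicit false

namespace Pool.Agent.Results.MP_b0c12c_nt.WindowPatterns

/-- For every `m : ℕ` and every `eps > 0` there is `K` such that for all reals
`b 0 < ... < b (K - 1)`, all reals `Lam` and all `del > 0` there is `c > 0` such that for all large
natural numbers `X` at least `c X` of the integers `1 ≤ n ≤ X` have the following property: there
are natural numbers `a 0 < ... < a (K - 1)` with `|a j - (n + b j log X)| ≤ del log X` for all `j`,
at least `m` of the `a j` are primes, and every natural number `q` with `|q - n| ≤ Lam log X` which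
is not one of the `a j` has a prime factor `≤ X ^ eps`. -/
theorem result (m : ℕ) (eps : ℝ) (heps : 0 < eps) :
    ∃ K : ℕ, ∀ (b : Fin K → ℝ) (Lam del : ℝ), StrictMono b → 0 < del →
      ∃ c : ℝ, 0 < c ∧ ∀ᶠ X : ℕ in Filter.atTop,
        c * X ≤ ({n : ℕ | 1 ≤ n ∧ n ≤ X ∧ ∃ a : Fin K → ℕ, StrictMono a ∧
          (∀ j, |(a j : ℝ) - (n + b j * Real.log X)| ≤ del * Real.log X) ∧
          m ≤ {j : Fin K | (a j).Prime}.ncard ∧
          ∀ q : ℕ, |(q : ℝ) - n| ≤ Lam * Real.log X → (∀ j, q ≠ a j) →
            ∃ p : ℕ, p.Prime ∧ (p : ℝ) ≤ (X : ℝ) ^ eps ∧ p ∣ q}.ncard : ℝ) := by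
  classical
  obtain ⟨K, hK⟩ := Pool.PP.w_UWV m eps heps
  refine ⟨K, fun b Lam del hb hdel => ?_⟩
  obtain ⟨c, hc, h⟩ := hK b Lam del hb hdel
  refine ⟨c, hc, ?_⟩
  filter_upwards [h] with X hX
  refine hX.trans (le_of_eq ?_)
  rw [← Set.ncard_coe_finset]
  congr 2
  ext n
  have hj : ∀ a : Fin K → ℕ, (Finset.univ.filter (fun j => (a j).Prime)).card =
      {j : Fin K | (a j).Prime}.ncard := by
    intro a
    rw [← Set.ncard_coe_finset]
    congr 1
    ext j
    simp
  simp only [Finset.coe_filter, Finset.mem_Icc, Set.mem_ofPred_eq, and_assoc, hj]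

/-- Consequence: there is `c > 0` such that for every `x` in `[0, c]` and every `η > 0` the primes
`p` which are followed by a gap `g` with `|g / log p - x| ≤ η` have positive upper density among
the primes. -/
theorem limit_interval : ∃ c : ℝ, 0 < c ∧ ∀ x ∈ Set.Icc 0 c, ∀ η : ℝ, 0 < η → ∃ δ : ℝ, 0 < δ ∧
      ∃ᶠ X : ℕ in Filter.atTop, δ * X / Real.log X ≤ ({l : ℕ | Nat.nth Nat.Prime (l + 1) ≤ X ∧
        |((Nat.nth Nat.Prime (l + 1) : ℝ) - Nat.nth Nat.Prime l) /
          Real.log (Nat.nth Nat.Prime l) - x| ≤ η}.ncard : ℝ) :=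
  Pool.LI.log_lim (result 2 (1 / 2) (by norm_num))

end Pool.Agent.Results.MP_b0c12c_nt.WindowPatterns
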